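import Pool.Agent.Helper495.NN.Main

set_option autoImplicit false

/-!
# The Nelson-Nguyen conjecture for SparseStacks with small failure probability

Sparsity `C (log r) / ε` and embedding dimension `C r / ε ^ 2` suffice for an oblivious subspace
embedding with distortion `1 ± ε` and failure probability `r ^ (-A)`, for every `A`, with
`C = C₀ e ^ A` and an absolute constant `C₀`.
-/

open scoped BigOperators

namespace Pool.Agent.Results.MP_b8b239_pr.PolynomialFailure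

open Pool.Agent.Helper495.NN

/-- the main theorem, with the dependence on the failure probability -/
theorem main_poly : ∃ C : ℝ, ∀ A : ℝ, 0 ≤ A → ∀ n r : ℕ, 2 ≤ r → r ≤ n →
    ∀ ε : ℝ, 0 < ε → ε < 1 →
    ∃ ζ b : ℕ, 1 ≤ ζ ∧ 1 ≤ b ∧ (ζ : ℝ) ≤ C * Real.exp A * Real.log r / ε ∧
      ((b * ζ : ℕ) : ℝ) ≤ C * Real.exp A * r / ε ^ 2 ∧
      IsOSE n ζ b r (1 - ε) (1 + ε) ((r : ℝ) ^ (-A)) := by
  obtain ⟨K, hK1, hK⟩ := avg_norm
  refine ⟨5 * (Real.exp 1 * K), fun A hA => ?_⟩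
  set δ' : ℝ := Real.exp (-A) with hδ'
  have hδ'0 : 0 < δ' := Real.exp_pos _
  have hδ'1 : δ' ≤ 1 := Real.exp_le_one_iff.2 (by linarith)
  have hKpos : 0 < K := by linarith
  set C2 : ℝ := Real.exp 1 * K / δ' with hC2
  have he1 : (1:ℝ) ≤ Real.exp 1 := Real.one_le_exp (by norm_num)
  have hC21 : 1 ≤ C2 := by
    rw [hC2, le_div_iff₀ hδ'0, one_mul]
    nlinarith
  have hC2pos : 0 < C2 := by linarith
  have hCA : 5 * (Real.exp 1 * K) * Real.exp A = 5 * C2 := by
    rw [hC2, hδ', Real.exp_neg]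
    field_simp
  rw [hCA]
  intro n r hr hrn ε hε hε1
  have hrpos : (0:ℝ) < r := by positivity
  have hr2 : (2:ℝ) ≤ r := by exact_mod_cast hr
  have hlog : 0 < Real.log r := Real.log_pos (by linarith)
  have hlog2 : (0.6931471803 : ℝ) < Real.log r :=
    lt_of_lt_of_le Real.log_two_gt_d9 (Real.log_le_log (by norm_num) hr2)
  -- the moment order
  obtain ⟨p, hp⟩ : ∃ p : ℕ, ⌈Real.log r⌉₊ = p + 1 :=
    ⟨⌈Real.log r⌉₊ - 1, by have := Nat.ceil_pos.2 hlog; omega⟩
  set P : ℝ := (p : ℝ) + 1 with hP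
  have hPc : (⌈Real.log r⌉₊ : ℝ) = P := by rw [hp]; push_cast; rfl
  have hP1 : 1 ≤ P := by rw [hP]; have : (0:ℝ) ≤ p := by positivity
                         linarith
  have hPlog : Real.log r ≤ P := by rw [← hPc]; exact Nat.le_ceil _
  have hPlog' : P ≤ Real.log r + 1 := by
    rw [← hPc]; exact (Nat.ceil_lt_add_one hlog.le).le
  have hPr : p + 1 ≤ r := by
    rw [← hp]
    apply Nat.ceil_le.2
    have := Real.log_le_sub_one_of_pos hrpos
    linarith
  have hPr' : P ≤ r := by rw [hP]; exact_mod_cast hPr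
  have hPpos : 0 < P := by linarith
  -- the scale
  set s : ℝ := ε / Real.sqrt C2 with hs
  have hsq1 : 1 ≤ Real.sqrt C2 := by rw [Real.one_le_sqrt]; exact hC21
  have hsqpos : 0 < Real.sqrt C2 := by linarith
  have hs0 : 0 < s := div_pos hε hsqpos
  have hs1 : s ≤ 1 := by
    rw [hs, div_le_one hsqpos]; linarith
  have hs2 : s ^ 2 = ε ^ 2 / C2 := by
    rw [hs, div_pow, Real.sq_sqrt hC2pos.le]
  have hPs1 : 1 ≤ P / s := by
    rw [le_div_iff₀ hs0]; linarith
  have hrs1 : 1 ≤ (r:ℝ) / (s * P) := by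
    rw [le_div_iff₀ (by positivity)]; nlinarith
  set ζ : ℕ := ⌈P / s⌉₊ with hζ
  set b : ℕ := ⌈(r:ℝ) / (s * P)⌉₊ with hb
  have hζ1 : P / s ≤ ζ := Nat.le_ceil _
  have hζ2 : (ζ:ℝ) ≤ 2 * (P / s) := by
    have := (Nat.ceil_lt_add_one (show 0 ≤ P / s by positivity)).le
    linarith
  have hb1 : (r:ℝ) / (s * P) ≤ b := Nat.le_ceil _
  have hb2 : (b:ℝ) ≤ 2 * ((r:ℝ) / (s * P)) := by
    have := (Nat.ceil_lt_add_one (show 0 ≤ (r:ℝ) / (s * P) by positivity)).le
    linarith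
  have hζ0 : 0 < ζ := Nat.ceil_pos.2 (by positivity)
  have hb0 : 0 < b := Nat.ceil_pos.2 (by positivity)
  -- b is large
  have hexp : Real.exp (P / 2) / 2 ≤ b := by
    have h1 : P * Real.exp (P / 2) ≤ 2 * r := by
      -- t = exp ((log r - 1)/2), t^2 = r / e
      set t : ℝ := Real.exp ((Real.log r - 1) / 2) with ht
      have htpos : 0 < t := Real.exp_pos _
      have h2 : (Real.log r + 1) ≤ 2 * t := by
        have := Real.add_one_le_exp ((Real.log r - 1) / 2)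
        rw [← ht] at this
        linarith
      have h3 : Real.exp (P / 2) ≤ Real.exp ((Real.log r + 1) / 2) :=
        Real.exp_le_exp.2 (by linarith)
      have h4 : t * Real.exp ((Real.log r + 1) / 2) = r := by
        rw [ht, ← Real.exp_add]
        have : (Real.log r - 1) / 2 + (Real.log r + 1) / 2 = Real.log r := by ring
        rw [this, Real.exp_log hrpos]
      calc P * Real.exp (P / 2) ≤ (2 * t) * Real.exp ((Real.log r + 1) / 2) := by
            apply mul_le_mul (by linarith) h3 (Real.exp_pos _).le (by positivity)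
        _ = 2 * r := by rw [mul_assoc, h4]
    have h5 : (r:ℝ) / P ≤ (r:ℝ) / (s * P) := by
      apply div_le_div_of_nonneg_left hrpos.le (by positivity)
      nlinarith
    have h6 : Real.exp (P / 2) / 2 ≤ r / P := by
      rw [div_le_div_iff₀ (by norm_num) hPpos]; linarith
    linarith
  refine ⟨ζ, b, hζ0, hb0, ?_, ?_, ?_⟩
  · have h1 : P ≤ 2.5 * Real.log r := by nlinarith
    have h2 : (ζ:ℝ) ≤ 2 * (P * Real.sqrt C2 / ε) := by
      have : P / s = P * Real.sqrt C2 / ε := by rw [hs]; field_simp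
      rw [this] at hζ2; exact hζ2
    have h3 : Real.sqrt C2 ≤ C2 := by
      rw [Real.sqrt_le_left (by linarith)]; nlinarith
    have h4 : P * Real.sqrt C2 ≤ 2.5 * Real.log r * C2 := by
      apply mul_le_mul h1 h3 hsqpos.le (by positivity)
    calc (ζ:ℝ) ≤ 2 * (P * Real.sqrt C2 / ε) := h2
      _ ≤ 2 * ((2.5 * Real.log r * C2) / ε) := by gcongr
      _ = 5 * C2 * Real.log r / ε := by ring
  · push_cast
    calc (b:ℝ) * ζ ≤ (2 * ((r:ℝ) / (s * P))) * (2 * (P / s)) := by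
          apply mul_le_mul hb2 hζ2 (by positivity) (by positivity)
      _ = 4 * r / s ^ 2 := by field_simp; ring
      _ = 4 * C2 * r / ε ^ 2 := by rw [hs2]; field_simp
      _ ≤ 5 * C2 * r / ε ^ 2 := by gcongr; norm_num
  · intro V hV
    obtain ⟨u, hu, hV'⟩ := exists_frame V hV
    have hm := hK p n r ζ b s (by omega) hζ0 hb0 hs0 hs1 hζ1 hζ2 hb1 hPr hexp u (fun y => (hu y).le)
    refine markov hb0 (fun ω => ‖(1 / (ζ : ℝ)) • Bop (Zst ω u) (Zst ω u) - Bop u u‖)
      (fun ω => norm_nonneg _) ε ((r : ℝ) ^ (-A)) hε (2 * (p + 1)) (hm.trans ?_) _ ?_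
    · -- r (K s^2)^P ≤ δ ε^(2P)
      rw [hs2, pow_mul]
      have h1 : (r:ℝ) ≤ Real.exp 1 ^ (p + 1) := by
        rw [← Real.exp_nat_mul, ← Real.exp_log hrpos]
        apply Real.exp_le_exp.2
        push_cast
        linarith
      have h2 : K * (ε ^ 2 / C2) = (K / C2) * ε ^ 2 := by ring
      rw [h2, mul_pow]
      have h3 : Real.exp 1 * (K / C2) = δ' := by
        rw [hC2]; field_simp
      calc (r:ℝ) * ((K / C2) ^ (p + 1) * (ε ^ 2) ^ (p + 1))
          ≤ Real.exp 1 ^ (p + 1) * ((K / C2) ^ (p + 1) * (ε ^ 2) ^ (p + 1)) := by gcongr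
        _ = (Real.exp 1 * (K / C2)) ^ (p + 1) * (ε ^ 2) ^ (p + 1) := by rw [mul_pow]; ring
        _ = δ' ^ (p + 1) * (ε ^ 2) ^ (p + 1) := by rw [h3]
        _ ≤ (r : ℝ) ^ (-A) * (ε ^ 2) ^ (p + 1) := by
            apply mul_le_mul_of_nonneg_right _ (by positivity)
            rw [hδ', ← Real.exp_nat_mul, Real.rpow_def_of_pos hrpos]
            apply Real.exp_le_exp.2
            push_cast
            nlinarith
    · intro ω hω x hx
      obtain ⟨y, hy1, hy2⟩ := hV' x hx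
      exact good_of_norm hζ0 ω u hu ε hε hε1 hω x y hy1 hy2

/-- **The Nelson-Nguyen conjecture for SparseStacks** (first part: every fixed failure probability
`δ`), **with polynomially small failure probability** (second part): there is an absolute constant
`C` such that for all `A ≥ 0`, `n ≥ r ≥ 2` and `0 < ε < 1` some SparseStack with sparsity at most
`C e ^ A (log r) / ε` and embedding dimension at most `C e ^ A r / ε ^ 2` is an oblivious subspace
embedding for `r`-dimensional subspaces with distortion `1 ± ε` and failure probability at most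
`r ^ (-A)`. -/
theorem result :
    (∀ δ : ℝ, 0 < δ → ∃ C : ℝ, ∀ n r : ℕ, 2 ≤ r → r ≤ n → ∀ ε : ℝ, 0 < ε → ε < 1 →
      ∃ ζ b : ℕ, 1 ≤ ζ ∧ 1 ≤ b ∧ (ζ : ℝ) ≤ C * Real.log r / ε ∧
        ((b * ζ : ℕ) : ℝ) ≤ C * r / ε ^ 2 ∧ IsOSE n ζ b r (1 - ε) (1 + ε) δ) ∧
    ∃ C : ℝ, ∀ A : ℝ, 0 ≤ A → ∀ n r : ℕ, 2 ≤ r → r ≤ n → ∀ ε : ℝ, 0 < ε → ε < 1 →
      ∃ ζ b : ℕ, 1 ≤ ζ ∧ 1 ≤ b ∧ (ζ : ℝ) ≤ C * Real.exp A * Real.log r / ε ∧
        ((b * ζ : ℕ) : ℝ) ≤ C * Real.exp A * r / ε ^ 2 ∧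
        IsOSE n ζ b r (1 - ε) (1 + ε) ((r : ℝ) ^ (-A)) :=
  ⟨fun δ hδ => main δ hδ, main_poly⟩

end Pool.Agent.Results.MP_b8b239_pr.PolynomialFailure
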